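import Mathlib

set_option autoImplicit false
set_option linter.unusedSectionVars false

/-! The centraliser of a regular strictly upper triangular matrix. -/

namespace Pool.Agent.Y88.FC

open Matrix

section ring

variable {T : Type} [CommRing T] {m : ℕ}

/-- strictly upper triangular matrices -/
def Sut {n : ℕ} (x : Matrix (Fin n) (Fin n) T) : Prop := ∀ i j, ¬ i < j → x i j = 0

theorem pow_zero_of_lt {n : ℕ} {x : Matrix (Fin n) (Fin n) T} (hx : Sut x) (t : ℕ) (i j : Fin n)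
    (h : (j : ℕ) < i + t) : (x ^ t) i j = 0 := by
  induction t generalizing j with
  | zero =>
    rw [pow_zero, Matrix.one_apply_ne]
    rintro rfl
    omega
  | succ t ih =>
    rw [pow_succ, Matrix.mul_apply]
    refine Finset.sum_eq_zero fun l _ => ?_
    by_cases hl : (l : ℕ) < i + t
    · rw [ih l hl, zero_mul]
    · rw [hx l j (by rw [Fin.lt_def]; omega), mul_zero]

theorem pow_diag {x : Matrix (Fin (m + 1)) (Fin (m + 1)) T} (hx : Sut x) (t : ℕ) (ht : t + 1 < m + 1) :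
    (x ^ (t + 1)) 0 ⟨t + 1, ht⟩ = (x ^ t) 0 ⟨t, by omega⟩ * x ⟨t, by omega⟩ ⟨t + 1, ht⟩ := by
  rw [pow_succ, Matrix.mul_apply, Finset.sum_eq_single (⟨t, by omega⟩ : Fin (m + 1))]
  · intro l _ hl
    have hl' : (l : ℕ) ≠ t := fun h => hl (Fin.ext h)
    by_cases h : (l : ℕ) < t
    · rw [pow_zero_of_lt hx t 0 l (by rw [Fin.val_zero, Nat.zero_add]; exact h), zero_mul]
    · rw [hx l ⟨t + 1, ht⟩ (by rw [Fin.lt_def]; simp only; omega), mul_zero]
  · intro h
    exact absurd (Finset.mem_univ _) h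

end ring

section field

variable {K : Type} [Field K] {m : ℕ}

theorem pow_ne {x : Matrix (Fin (m + 1)) (Fin (m + 1)) K} (hx : Sut x)
    (hsd : ∀ (i : ℕ) (h : i + 1 < m + 1), x ⟨i, by omega⟩ ⟨i + 1, h⟩ ≠ 0) (t : ℕ)
    (ht : t < m + 1) : (x ^ t) 0 ⟨t, ht⟩ ≠ 0 := by
  induction t with
  | zero =>
    rw [pow_zero]
    have : (⟨0, ht⟩ : Fin (m + 1)) = 0 := rfl
    rw [this, Matrix.one_apply_eq]
    exact one_ne_zero
  | succ t ih =>
    rw [pow_diag hx t ht]
    exact mul_ne_zero (ih (by omega)) (hsd t ht)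

/-- the matrix of the first rows of the powers -/
def PM (x : Matrix (Fin (m + 1)) (Fin (m + 1)) K) : Matrix (Fin (m + 1)) (Fin (m + 1)) K :=
  Matrix.of fun t j => (x ^ (t : ℕ)) 0 j

theorem PM_det {x : Matrix (Fin (m + 1)) (Fin (m + 1)) K} (hx : Sut x)
    (hsd : ∀ (i : ℕ) (h : i + 1 < m + 1), x ⟨i, by omega⟩ ⟨i + 1, h⟩ ≠ 0) :
    IsUnit (PM x).det := by
  rw [isUnit_iff_ne_zero, Matrix.det_of_upperTriangular, Finset.prod_ne_zero_iff]
  · intro t _
    exact pow_ne hx hsd t t.2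
  · intro t j h
    exact pow_zero_of_lt hx t 0 j (by rw [Fin.val_zero, Nat.zero_add]; exact h)

/-- A matrix which commutes with `x` and has first row zero is zero. -/
theorem eq_zero_of_row {x z : Matrix (Fin (m + 1)) (Fin (m + 1)) K} (hx : Sut x)
    (hsd : ∀ (i : ℕ) (h : i + 1 < m + 1), x ⟨i, by omega⟩ ⟨i + 1, h⟩ ≠ 0)
    (hc : Commute x z) (hz : ∀ j, z 0 j = 0) : z = 0 := by
  have h1 : PM x * z = 0 := by
    ext t j
    have h2 : (PM x * z) t j = (x ^ (t : ℕ) * z) 0 j := by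
      rw [Matrix.mul_apply, Matrix.mul_apply]
      rfl
    rw [h2, (hc.pow_left (t : ℕ)).eq, Matrix.mul_apply]
    refine Finset.sum_eq_zero fun l _ => ?_
    rw [hz, zero_mul]
  calc z = (PM x)⁻¹ * (PM x * z) := by
        rw [← Matrix.mul_assoc, Matrix.nonsing_inv_mul _ (PM_det hx hsd), Matrix.one_mul]
    _ = 0 := by rw [h1, Matrix.mul_zero]

/-- The centraliser of a regular nilpotent matrix. -/
theorem centralizer {x y : Matrix (Fin (m + 1)) (Fin (m + 1)) K} (hx : Sut x)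
    (hsd : ∀ (i : ℕ) (h : i + 1 < m + 1), x ⟨i, by omega⟩ ⟨i + 1, h⟩ ≠ 0)
    (hc : Commute x y) (hy : Sut y) :
    ∃ c : Fin m → K, y = ∑ t : Fin m, c t • x ^ ((t : ℕ) + 1) := by
  let w : Fin (m + 1) → K := (y 0) ᵥ* (PM x)⁻¹
  have hw : w ᵥ* PM x = y 0 := by
    change ((y 0) ᵥ* (PM x)⁻¹) ᵥ* PM x = y 0
    rw [Matrix.vecMul_vecMul, Matrix.nonsing_inv_mul _ (PM_det hx hsd), Matrix.vecMul_one]
  have hcomm : Commute x (y - ∑ t : Fin (m + 1), w t • x ^ (t : ℕ)) := by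
    apply Commute.sub_right hc
    apply Commute.sum_right
    intro t _
    exact ((Commute.refl x).pow_right _).smul_right _
  have hrow : ∀ j, (y - ∑ t : Fin (m + 1), w t • x ^ (t : ℕ)) 0 j = 0 := by
    intro j
    have h1 := congrFun hw j
    rw [Matrix.sub_apply, Matrix.sum_apply, ← h1, sub_eq_zero]
    simp only [Matrix.vecMul, dotProduct, PM, Matrix.of_apply, Matrix.smul_apply, smul_eq_mul]
  have h0 := eq_zero_of_row hx hsd hcomm hrow
  have hy2 : y = ∑ t : Fin (m + 1), w t • x ^ (t : ℕ) := sub_eq_zero.1 h0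
  have hw0 : w 0 = 0 := by
    have h1 : y 0 0 = 0 := hy 0 0 (lt_irrefl _)
    rw [hy2, Matrix.sum_apply, Fin.sum_univ_succ] at h1
    rw [Finset.sum_eq_zero, add_zero] at h1
    · simpa using h1
    · intro t _
      rw [Matrix.smul_apply, pow_zero_of_lt hx _ 0 0, smul_zero]
      rw [Fin.val_succ, Fin.val_zero]
      omega
  refine ⟨fun t => w t.succ, ?_⟩
  rw [hy2, Fin.sum_univ_succ, hw0, zero_smul, zero_add]
  rfl

end field

end Pool.Agent.Y88.FC
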