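import Pool.Agent.Y88.FC.Defs
import Pool.Agent.Y88.FC.Lin

set_option autoImplicit false
set_option linter.unusedSectionVars false

namespace Pool.Agent.Y88.FC

open Matrix

variable {k : Type} [Field k]

section

variable {n r : ℕ} {T : Type} [CommRing T] [Algebra k T]

/-- the matrices of a homomorphism -/
noncomputable def MF (f : Pol k n r →ₐ[k] T) (a : Fin r) : Matrix (Fin n) (Fin n) T :=
  Matrix.of fun i j => f (MvPolynomial.X (a, i, j))

theorem map_gen (f : Pol k n r →ₐ[k] T) (h0 : ∀ a, Sut (MF f a)) (a : Fin r) :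
    (gen k n r a).map f = MF f a := by
  ext i j
  rw [Matrix.map_apply]
  unfold gen
  split_ifs with h
  · rfl
  · rw [map_zero, h0 a i j h]

theorem map_comm (f : Pol k n r →ₐ[k] T) (h0 : ∀ a, Sut (MF f a)) (a b : Fin r) (i j : Fin n) :
    f ((gen k n r a * gen k n r b - gen k n r b * gen k n r a) i j) =
      (MF f a * MF f b - MF f b * MF f a) i j := by
  have h : (f : Pol k n r →+* T).mapMatrix
      (gen k n r a * gen k n r b - gen k n r b * gen k n r a) =
      MF f a * MF f b - MF f b * MF f a := by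
    rw [map_sub, map_mul, map_mul]
    have e : ∀ a, (f : Pol k n r →+* T).mapMatrix (gen k n r a) = MF f a := fun a =>
      map_gen f h0 a
    rw [e, e]
  exact congrFun (congrFun h i) j

theorem sut_of_le (f : Pol k n r →ₐ[k] T) (h : commIdeal k n r ≤ RingHom.ker f) (a : Fin r) :
    Sut (MF f a) := fun i j hij => h (Ideal.subset_span (Or.inl ⟨a, i, j, hij, rfl⟩))

theorem comm_of_le (f : Pol k n r →ₐ[k] T) (h : commIdeal k n r ≤ RingHom.ker f) (a b : Fin r) :
    Commute (MF f a) (MF f b) := by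
  have h1 : MF f a * MF f b - MF f b * MF f a = 0 := by
    ext i j
    rw [← map_comm f (sut_of_le f h)]
    exact h (Ideal.subset_span (Or.inr ⟨a, b, i, j, rfl⟩))
  exact sub_eq_zero.1 h1

theorem le_of (f : Pol k n r →ₐ[k] T) (h0 : ∀ a, Sut (MF f a))
    (h : ∀ a b, Commute (MF f a) (MF f b)) : commIdeal k n r ≤ RingHom.ker f := by
  unfold commIdeal
  rw [Ideal.span_le]
  rintro g (⟨a, i, j, hij, rfl⟩ | ⟨a, b, i, j, rfl⟩)
  · exact h0 a i j hij
  · change f ((gen k n r a * gen k n r b - gen k n r b * gen k n r a) i j) = 0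
    rw [map_comm f h0, (h a b).eq, sub_self]
    rfl

end

/-! ### The parametrisation of the regular component -/

section param

variable {m q : ℕ}

/-- indices of the entries above the diagonal -/
abbrev UU (m : ℕ) : Type := Σ j : Fin (m + 1), Fin j

/-- index set of the parameters -/
abbrev TT (m q : ℕ) : Type := UU m ⊕ (Fin q × Fin m)

variable {T : Type} [CommRing T]

/-- the matrix with given entries above the diagonal -/
def mat (x : UU m → T) : Matrix (Fin (m + 1)) (Fin (m + 1)) T :=
  Matrix.of fun i j => if h : (i : ℕ) < (j : ℕ) then x ⟨j, ⟨i, h⟩⟩ else 0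

theorem mat_sut (x : UU m → T) : Sut (mat x) := by
  intro i j h
  unfold mat
  rw [Matrix.of_apply, dif_neg (fun h' => h (Fin.lt_def.2 h'))]

/-- the commuting matrices -/
def MM (x : UU m → T) (c : Fin q → Fin m → T) (a : Fin (q + 1)) :
    Matrix (Fin (m + 1)) (Fin (m + 1)) T :=
  Fin.cases (mat x) (fun b => ∑ t : Fin m, c b t • (mat x) ^ ((t : ℕ) + 1)) a

theorem MM_sut (x : UU m → T) (c : Fin q → Fin m → T) (a : Fin (q + 1)) : Sut (MM x c a) := by
  refine Fin.cases ?_ (fun b => ?_) a
  · exact mat_sut x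
  · intro i j h
    change (∑ t : Fin m, c b t • (mat x) ^ ((t : ℕ) + 1)) i j = 0
    rw [Matrix.sum_apply]
    refine Finset.sum_eq_zero fun t _ => ?_
    rw [Matrix.smul_apply, pow_zero_of_lt (mat_sut x) _ i j, smul_zero]
    rw [Fin.lt_def] at h
    omega

theorem MM_comm_mat (x : UU m → T) (c : Fin q → Fin m → T) (a : Fin (q + 1)) :
    Commute (mat x) (MM x c a) := by
  refine Fin.cases ?_ (fun b => ?_) a
  · exact Commute.refl _
  · change Commute (mat x) (∑ t : Fin m, c b t • (mat x) ^ ((t : ℕ) + 1))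
    apply Commute.sum_right
    intro t _
    exact ((Commute.refl _).pow_right _).smul_right _

theorem MM_comm (x : UU m → T) (c : Fin q → Fin m → T) (a b : Fin (q + 1)) :
    Commute (MM x c a) (MM x c b) := by
  refine Fin.cases ?_ (fun a' => ?_) a
  · exact MM_comm_mat x c b
  · change Commute (∑ t : Fin m, c a' t • (mat x) ^ ((t : ℕ) + 1)) (MM x c b)
    apply Commute.sum_left
    intro t _
    exact ((MM_comm_mat x c b).pow_left _).smul_left _

theorem map_mat {T' : Type} [CommRing T'] (f : T →+* T') (x : UU m → T) :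
    f.mapMatrix (mat x) = mat fun p => f (x p) := by
  ext i j
  rw [RingHom.mapMatrix_apply, Matrix.map_apply]
  unfold mat
  rw [Matrix.of_apply, Matrix.of_apply]
  split_ifs
  · rfl
  · exact map_zero f

theorem map_MM {T' : Type} [CommRing T'] (f : T →+* T') (x : UU m → T) (c : Fin q → Fin m → T)
    (a : Fin (q + 1)) : f.mapMatrix (MM x c a) = MM (fun p => f (x p)) (fun b t => f (c b t)) a := by
  refine Fin.cases ?_ (fun b => ?_) a
  · exact map_mat f x
  · change f.mapMatrix (∑ t : Fin m, c b t • (mat x) ^ ((t : ℕ) + 1)) =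
      ∑ t : Fin m, f (c b t) • (mat fun p => f (x p)) ^ ((t : ℕ) + 1)
    rw [map_sum]
    refine Finset.sum_congr rfl fun t _ => ?_
    rw [← map_mat f x, ← map_pow]
    ext i j
    rw [RingHom.mapMatrix_apply, Matrix.map_apply, Matrix.smul_apply, Matrix.smul_apply,
      RingHom.mapMatrix_apply, Matrix.map_apply, smul_eq_mul, smul_eq_mul, map_mul]

/-- the parametrisation of the regular component -/
noncomputable def phi (k : Type) [Field k] (m q : ℕ) :
    Pol k (m + 1) (q + 1) →ₐ[k] MvPolynomial (TT m q) k :=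
  MvPolynomial.aeval fun v => MM (fun t => MvPolynomial.X (Sum.inl t))
    (fun b t => MvPolynomial.X (Sum.inr (b, t))) v.1 v.2.1 v.2.2

theorem MF_phi (k : Type) [Field k] (m q : ℕ) (a : Fin (q + 1)) : MF (phi k m q) a =
    MM (fun t => MvPolynomial.X (Sum.inl t)) (fun b t => MvPolynomial.X (Sum.inr (b, t))) a := by
  ext i j
  unfold MF phi
  rw [Matrix.of_apply, MvPolynomial.aeval_X]

theorem phi_le (k : Type) [Field k] (m q : ℕ) :
    commIdeal k (m + 1) (q + 1) ≤ RingHom.ker (phi k m q) := by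
  apply le_of
  · intro a
    rw [MF_phi]
    exact MM_sut _ _ a
  · intro a b
    rw [MF_phi, MF_phi]
    exact MM_comm _ _ a b

theorem factor (m q : ℕ) {K : Type} [Field K] [Algebra k K]
    (f : Pol k (m + 1) (q + 1) →ₐ[k] K)
    (hf : commIdeal k (m + 1) (q + 1) ≤ RingHom.ker f)
    (hsd : ∀ (i : ℕ) (h : i + 1 < m + 1),
      f (MvPolynomial.X (0, ⟨i, by omega⟩, ⟨i + 1, h⟩)) ≠ 0) :
    ∃ δ : MvPolynomial (TT m q) k →ₐ[k] K, δ.comp (phi k m q) = f := by
  let x : UU m → K := fun p => f (MvPolynomial.X (0, ⟨p.2.1, p.2.2.trans p.1.2⟩, p.1))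
  have hx : mat x = MF f 0 := by
    ext i j
    unfold mat
    rw [Matrix.of_apply]
    split_ifs with h
    · rfl
    · exact (sut_of_le f hf 0 i j (fun h' => h (Fin.lt_def.1 h'))).symm
  have hs : ∀ b : Fin q, ∃ c : Fin m → K,
      MF f b.succ = ∑ t : Fin m, c t • (mat x) ^ ((t : ℕ) + 1) := by
    intro b
    rw [hx]
    exact centralizer (sut_of_le f hf 0) hsd (comm_of_le f hf 0 b.succ) (sut_of_le f hf b.succ)
  choose c hc using hs
  have hM : ∀ a, MM x c a = MF f a := by
    intro a
    refine Fin.cases ?_ (fun b => ?_) a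
    · exact hx
    · exact (hc b).symm
  refine ⟨MvPolynomial.aeval (Sum.elim x (fun v => c v.1 v.2)), ?_⟩
  apply MvPolynomial.algHom_ext
  rintro ⟨a, i, j⟩
  rw [AlgHom.comp_apply, phi, MvPolynomial.aeval_X]
  have h3 := map_MM ((MvPolynomial.aeval (R := k) (Sum.elim x (fun v => c v.1 v.2)) :
      MvPolynomial (TT m q) k →ₐ[k] K) : MvPolynomial (TT m q) k →+* K)
      (fun t => MvPolynomial.X (Sum.inl t)) (fun b t => MvPolynomial.X (Sum.inr (b, t))) a
  have h4 := congrFun (congrFun h3 i) j
  refine Eq.trans h4 ?_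
  simp only [RingHom.coe_coe, MvPolynomial.aeval_X, Sum.elim_inl, Sum.elim_inr]
  exact congrFun (congrFun (hM a) i) j

end param

end Pool.Agent.Y88.FC
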