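import Mathlib

set_option autoImplicit false

/-!
# Commuting tuples in the strictly upper triangular `n × n` matrices
-/

namespace Pool.Agent.Y88.FC

/-- The polynomial ring in the variables `(a, i, j)`, `a < r` and `i, j < n`. -/
abbrev Pol (k : Type) [Field k] (n r : ℕ) : Type := MvPolynomial (Fin r × Fin n × Fin n) k

/-- The generic strictly upper triangular `n × n` matrices `X_a`, `a < r`, with entries the
variables `(a, i, j)`, `i < j`. -/
noncomputable def gen (k : Type) [Field k] (n r : ℕ) (a : Fin r) :
    Matrix (Fin n) (Fin n) (Pol k n r) :=
  fun i j => if i < j then MvPolynomial.X (a, i, j) else 0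

/-- The ideal of the polynomial ring generated by the variables `(a, i, j)` that are not above the
diagonal and by the entries of all commutators `X_a X_b - X_b X_a`. -/
noncomputable def commIdeal (k : Type) [Field k] (n r : ℕ) : Ideal (Pol k n r) :=
  Ideal.span ({f | ∃ a i j, ¬ i < j ∧ f = MvPolynomial.X (a, i, j)} ∪
    {f | ∃ a b i j, f = (gen k n r a * gen k n r b - gen k n r b * gen k n r a) i j})

/-- The coordinate ring of the variety of commuting `r`-tuples of strictly upper triangular
`n × n` matrices. -/
abbrev CR (k : Type) [Field k] (n r : ℕ) : Type := Pol k n r ⧸ (commIdeal k n r).radical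

end Pool.Agent.Y88.FC
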