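import Pool.Agent.Y88.FC.Comm
import Pool.Agent.H989R3.CMF.Dim
import Pool.Agent.H989R3.CMF.General

set_option autoImplicit false
set_option linter.unusedSectionVars false

namespace Pool.Agent.Y88.FC

open Pool.Agent.H989R3.CMF (IsCM not_isCM coheight_le le_height ev exists_assoc_lt)

variable {k : Type} [Field k]

/-! ### The linear component -/

/-- the index set of the linear component -/
abbrev LI (n r : ℕ) : Type := Fin r × Fin (n / 2) × Fin (n - n / 2)

/-- the linear component: matrices with entries in the upper right block -/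
noncomputable def theta (k : Type) [Field k] (n r : ℕ) :
    Pol k n r →ₐ[k] MvPolynomial (LI n r) k :=
  MvPolynomial.aeval fun v => if h : v.2.1.1 < n / 2 ∧ n / 2 ≤ v.2.2.1 then
    MvPolynomial.X (v.1, ⟨v.2.1.1, h.1⟩, ⟨v.2.2.1 - n / 2, by omega⟩) else 0

theorem MF_theta (k : Type) [Field k] (n r : ℕ) (a : Fin r) (i j : Fin n) :
    MF (theta k n r) a i j = if h : i.1 < n / 2 ∧ n / 2 ≤ j.1 then
      MvPolynomial.X (a, ⟨i.1, h.1⟩, ⟨j.1 - n / 2, by omega⟩) else 0 := by
  unfold MF theta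
  rw [Matrix.of_apply, MvPolynomial.aeval_X]

theorem theta_le (k : Type) [Field k] (n r : ℕ) : commIdeal k n r ≤ RingHom.ker (theta k n r) := by
  have hz : ∀ a b : Fin r, MF (theta k n r) a * MF (theta k n r) b = 0 := by
    intro a b
    refine Matrix.ext fun i j => ?_
    rw [Matrix.mul_apply]
    refine Finset.sum_eq_zero fun l _ => ?_
    rw [MF_theta, MF_theta]
    by_cases h1 : n / 2 ≤ l.1
    · rw [dif_neg (c := l.1 < n / 2 ∧ n / 2 ≤ j.1) (fun h => absurd h.1 (not_lt.2 h1)), mul_zero]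
    · rw [dif_neg (c := i.1 < n / 2 ∧ n / 2 ≤ l.1) (fun h => h1 h.2), zero_mul]
  apply le_of
  · intro a i j hij
    rw [MF_theta]
    apply dif_neg
    rintro ⟨h1, h2⟩
    apply hij
    exact Fin.lt_def.mpr (by omega)
  · intro a b
    change MF (theta k n r) a * MF (theta k n r) b = MF (theta k n r) b * MF (theta k n r) a
    rw [hz, hz]

theorem theta_surj (k : Type) [Field k] (n r : ℕ) : Function.Surjective (theta k n r) := by
  rw [← AlgHom.range_eq_top, ← top_le_iff, ← MvPolynomial.adjoin_range_X, Algebra.adjoin_le_iff]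
  rintro _ ⟨⟨a, i, j⟩, rfl⟩
  have hi := i.2
  have hj := j.2
  refine ⟨MvPolynomial.X (a, ⟨i.1, by omega⟩, ⟨j.1 + n / 2, by omega⟩), ?_⟩
  change theta k n r _ = _
  rw [theta, MvPolynomial.aeval_X, dif_pos ⟨i.2, by simp⟩]
  congr 1
  ext
  · rfl
  · rfl
  · simp

/-- homs that kill the ideal factor through the reduced quotient -/
noncomputable def bar {n r : ℕ} {T : Type} [CommRing T] [IsDomain T] [Algebra k T]
    (f : Pol k n r →ₐ[k] T) (hf : commIdeal k n r ≤ RingHom.ker f) : CR k n r →ₐ[k] T :=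
  Ideal.Quotient.liftₐ _ f (by
    have h1 : (commIdeal k n r).radical ≤ RingHom.ker f :=
      (RingHom.ker_isPrime f.toRingHom).radical_le_iff.mpr hf
    intro a ha
    exact h1 ha)

theorem bar_mk {n r : ℕ} {T : Type} [CommRing T] [IsDomain T] [Algebra k T]
    (f : Pol k n r →ₐ[k] T) (hf : commIdeal k n r ≤ RingHom.ker f) (a : Pol k n r) :
    bar f hf (Ideal.Quotient.mk _ a) = f a := rfl

/-- the points -/
noncomputable def pt {n r : ℕ} {T : Type} [CommRing T] [IsDomain T] [Algebra k T]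
    (f : Pol k n r →ₐ[k] T) (hf : commIdeal k n r ≤ RingHom.ker f) :
    PrimeSpectrum (CR k n r) :=
  ⟨RingHom.ker (bar f hf).toRingHom, RingHom.ker_isPrime _⟩

theorem exists_field {R : Type} [CommRing R] [Algebra k R] (Q : PrimeSpectrum R) :
    ∃ (K : Type) (_ : Field K) (_ : Algebra k K) (g : R →ₐ[k] K),
      ∀ a, g a = 0 ↔ a ∈ Q.asIdeal := by
  have := Q.2
  letI : Algebra k Q.asIdeal.ResidueField :=
    ((algebraMap R Q.asIdeal.ResidueField).comp (algebraMap k R)).toAlgebra
  refine ⟨Q.asIdeal.ResidueField, inferInstance, inferInstance,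
    { algebraMap R Q.asIdeal.ResidueField with commutes' := fun _ => rfl }, ?_⟩
  intro a
  exact Ideal.algebraMap_residueField_eq_zero

theorem pt_min (m q : ℕ) : IsMin (pt (phi k m q) (phi_le k m q)) := by
  intro Q hQ
  obtain ⟨K, _, _, g, hg⟩ := exists_field (k := k) Q
  let mk : Pol k (m + 1) (q + 1) →ₐ[k] CR k (m + 1) (q + 1) := Ideal.Quotient.mkₐ k _
  let f : Pol k (m + 1) (q + 1) →ₐ[k] K := g.comp mk
  have hf0 : ∀ a : Pol k (m + 1) (q + 1), f a = 0 ↔ mk a ∈ Q.asIdeal := fun a => hg (mk a)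
  have hle : commIdeal k (m + 1) (q + 1) ≤ RingHom.ker f := by
    intro a ha
    change f a = 0
    rw [hf0]
    have : mk a = 0 := by
      change Ideal.Quotient.mk _ a = 0
      rw [Ideal.Quotient.eq_zero_iff_mem]
      exact Ideal.le_radical ha
    rw [this]
    exact Q.asIdeal.zero_mem
  have hne : ∀ a : Pol k (m + 1) (q + 1), phi k m q a ≠ 0 → f a ≠ 0 := by
    intro a ha hfa
    rw [hf0] at hfa
    have h1 := hQ hfa
    exact ha h1
  obtain ⟨δ, hδ⟩ := factor m q f hle (by
    intro i h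
    apply hne
    have e : phi k m q (MvPolynomial.X (0, ⟨i, by omega⟩, ⟨i + 1, h⟩)) =
        MF (phi k m q) 0 ⟨i, by omega⟩ ⟨i + 1, h⟩ := rfl
    rw [e, MF_phi]
    change mat (fun t => MvPolynomial.X (Sum.inl t)) ⟨i, by omega⟩ ⟨i + 1, h⟩ ≠ _
    unfold mat
    rw [Matrix.of_apply, dif_pos (Nat.lt_succ_self i)]
    exact MvPolynomial.X_ne_zero _)
  intro x hx
  obtain ⟨a, rfl⟩ := Ideal.Quotient.mk_surjective x
  have h1 : phi k m q a = 0 := hx
  have h2 : f a = 0 := by
    rw [← hδ, AlgHom.comp_apply, h1, map_zero]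
  exact (hf0 a).mp h2

/-- the origin -/
noncomputable def eps (k : Type) [Field k] (n r : ℕ) : Pol k n r →ₐ[k] k :=
  MvPolynomial.aeval fun _ => 0

theorem MF_eps (k : Type) [Field k] (n r : ℕ) (a : Fin r) : MF (eps k n r) a = 0 := by
  ext i j
  unfold MF eps
  rw [Matrix.of_apply, MvPolynomial.aeval_X]
  rfl

theorem eps_le (k : Type) [Field k] (n r : ℕ) : commIdeal k n r ≤ RingHom.ker (eps k n r) := by
  apply le_of
  · intro a i j _
    rw [MF_eps]
    rfl
  · intro a b
    rw [MF_eps, MF_eps]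

theorem eps_max (k : Type) [Field k] (n r : ℕ) : IsMax (pt (eps k n r) (eps_le k n r)) := by
  rw [PrimeSpectrum.isMax_iff]
  apply RingHom.ker_isMaximal_of_surjective
  intro c
  refine ⟨algebraMap k _ c, ?_⟩
  exact (bar (eps k n r) (eps_le k n r)).commutes c

theorem phi_le_eps (m q : ℕ) :
    pt (phi k m q) (phi_le k m q) ≤ pt (eps k (m + 1) (q + 1)) (eps_le k (m + 1) (q + 1)) := by
  have hcomp : eps k (m + 1) (q + 1) = (MvPolynomial.aeval (fun _ => (0 : k)) :
      MvPolynomial (TT m q) k →ₐ[k] k).comp (phi k m q) := by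
    apply MvPolynomial.algHom_ext
    rintro ⟨a, i, j⟩
    rw [AlgHom.comp_apply, phi, MvPolynomial.aeval_X, eps, MvPolynomial.aeval_X]
    have h := congrFun (congrFun (map_MM ((MvPolynomial.aeval (fun _ => (0 : k)) :
      MvPolynomial (TT m q) k →ₐ[k] k) : MvPolynomial (TT m q) k →+* k)
      (fun t => MvPolynomial.X (Sum.inl t))
      (fun b t => MvPolynomial.X (Sum.inr (b, t))) a) i) j
    refine (Eq.trans h ?_).symm
    simp only [RingHom.coe_coe, MvPolynomial.aeval_X]
    refine Fin.cases ?_ (fun b => ?_) a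
    · change mat (fun _ => (0 : k)) i j = 0
      unfold mat
      rw [Matrix.of_apply]
      split_ifs <;> rfl
    · change (∑ t : Fin m, (0 : k) • (mat fun _ => (0 : k)) ^ ((t : ℕ) + 1)) i j = 0
      simp
  intro x hx
  obtain ⟨a, rfl⟩ := Ideal.Quotient.mk_surjective x
  have h1 : phi k m q a = 0 := hx
  change eps k (m + 1) (q + 1) a = 0
  rw [hcomp, AlgHom.comp_apply, h1, map_zero]

theorem height_eps (k : Type) [Field k] (n r : ℕ) :
    ((r * (n / 2 * (n - n / 2)) : ℕ) : ℕ∞) ≤ Order.height (pt (eps k n r) (eps_le k n r)) := by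
  classical
  have hs : Function.Surjective (bar (theta k n r) (theta_le k n r)).toRingHom := by
    intro y
    obtain ⟨a, ha⟩ := theta_surj k n r y
    exact ⟨Ideal.Quotient.mk _ a, ha⟩
  have h1 := le_height (bar (theta k n r) (theta_le k n r)).toRingHom hs
    (Finset.univ : Finset (LI n r))
  have hc : (Finset.univ : Finset (LI n r)).card = r * (n / 2 * (n - n / 2)) := by
    simp
  rw [hc] at h1
  refine h1.trans (Order.height_mono ?_)
  intro x hx
  obtain ⟨a, rfl⟩ := Ideal.Quotient.mk_surjective x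
  have h2 : ev k Finset.univ (theta k n r a) = 0 := hx
  change eps k n r a = 0
  have hcomp : (Algebra.ofId k (MvPolynomial (LI n r) k)).comp (eps k n r) =
      (ev k Finset.univ).comp (theta k n r) := by
    apply MvPolynomial.algHom_ext
    rintro ⟨a, i, j⟩
    rw [AlgHom.comp_apply, AlgHom.comp_apply, eps, MvPolynomial.aeval_X, theta,
      MvPolynomial.aeval_X, map_zero]
    split_ifs with h
    · rw [ev, MvPolynomial.aeval_X, if_pos (Finset.mem_univ _)]
    · rw [map_zero]
  have h3 : algebraMap k (MvPolynomial (LI n r) k) (eps k n r a) = 0 := by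
    have := DFunLike.congr_fun hcomp a
    rw [AlgHom.comp_apply, AlgHom.comp_apply, h2] at this
    exact this
  exact (map_eq_zero_iff _ (FaithfulSMul.algebraMap_injective k _)).mp h3

theorem card_UU (m : ℕ) : 2 * Fintype.card (UU m) = m * (m + 1) := by
  rw [Fintype.card_sigma]
  simp only [Fintype.card_fin]
  rw [Fin.sum_univ_eq_sum_range (fun i => i) (m + 1), mul_comm, Finset.sum_range_id_mul_two]
  simp [mul_comm]

theorem arith (m q : ℕ) (h : (m + 1) / 2 < q * ((m + 1) / 2 - 1)) :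
    m * (m + 1) + 2 * (q * m) < 2 * ((q + 1) * ((m + 1) / 2 * (m + 1 - (m + 1) / 2))) := by
  obtain ⟨s, hs⟩ : ∃ s, (m + 1) / 2 = s + 1 := by
    refine ⟨(m + 1) / 2 - 1, ?_⟩
    by_contra hcon
    have : (m + 1) / 2 = 0 := by omega
    rw [this] at h
    simp at h
  rw [hs] at h ⊢
  rw [Nat.add_sub_cancel] at h
  rcases Nat.even_or_odd (m + 1) with he | ho
  · obtain ⟨t, ht⟩ := he
    have hm : m = 2 * s + 1 := by omega
    subst hm
    rw [show 2 * s + 1 + 1 - (s + 1) = s + 1 by omega]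
    nlinarith
  · obtain ⟨t, ht⟩ := ho
    have hm : m = 2 * s + 2 := by omega
    subst hm
    rw [show 2 * s + 2 + 1 - (s + 1) = s + 2 by omega]
    nlinarith

theorem main (n r : ℕ) (hnr : n / 2 < (r - 1) * (n / 2 - 1)) {H : Type} [CommRing H]
    [IsNoetherianRing H] (ψ : H →+* CR k n r)
    (hker : RingHom.ker ψ ≤ nilradical H)
    (hψ : ∀ x, ∃ n > 0, x ^ n ∈ ψ.range) : ¬ IsCM H := by
  obtain ⟨q, rfl⟩ : ∃ q, r = q + 1 := ⟨r - 1, by
    rcases r with _ | r
    · simp at hnr
    · rfl⟩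
  obtain ⟨m, rfl⟩ : ∃ m, n = m + 1 := ⟨n - 1, by
    rcases n with _ | n
    · simp at hnr
    · rfl⟩
  have hc : 2 * Fintype.card (TT m q) = m * (m + 1) + 2 * (q * m) := by
    rw [Fintype.card_sum, mul_add, card_UU, Fintype.card_prod, Fintype.card_fin, Fintype.card_fin]
  have ha := arith m q (by simpa using hnr)
  refine not_isCM ψ hψ hker (pt (phi k m q) (phi_le k m q))
    (pt (eps k (m + 1) (q + 1)) (eps_le k (m + 1) (q + 1)))
    (pt_min m q) (eps_max k (m + 1) (q + 1)) (phi_le_eps m q) (Fintype.card (TT m q))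
    ((q + 1) * ((m + 1) / 2 * (m + 1 - (m + 1) / 2))) (by omega) ?_
    (height_eps k (m + 1) (q + 1))
  exact coheight_le (bar (phi k m q) (phi_le k m q)) (pt (phi k m q) (phi_le k m q)) rfl

end Pool.Agent.Y88.FC
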